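import Mathlib

attribute [-instance] Fintype.decidableForallFintype Finset.decidableDforallFinset RKHS.instFunLike
  Multiset.decidableDforallMultiset AddQuantale.instAddLeftMono
  Vector.instDecidableForallForallMemOfDecidablePred instCoeOTCOfCoeOut
  Array.instDecidableForallForallMemOfDecidablePred Int.decidableLTLE Option.decidableForallMem
  instCoeHTCOfCoeHeadOfCoeOTC Int.decidableLELE Int.decidableLTLT
  IdemSemiring.toCanonicallyOrderedAdd Int.decidableLELT instCoeTCOfCoe AddQuantale.instAddRightMono
  Group.IsPerfect.subsingleton_of_isMulCommutative AddGroupWithOne.toIntCast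

/-! Partitions into boxes: local structure, separated configurations, plates, the bound. -/

namespace Pool.Agent.MP_1e9e92_co.Bx

section Loc


open scoped Classical

variable {d : ℕ} {α : Type}

/-- a step of length `s` in direction `k` -/
def st (p : Fin d → ℤ) (k : Fin d) (s : ℤ) : Fin d → ℤ := fun j => if j = k then p j + s else p j

/-- `u` lies between `a` and `b` -/
def Bt (a b u : ℤ) : Prop := (a ≤ u ∧ u ≤ b) ∨ (b ≤ u ∧ u ≤ a)

/-- The classes of `L` are boxes with at most `l` points on each side, and a cube with `m + 1`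
points on each side sees at most `d + 1` labels. -/
structure Lab (L : (Fin d → ℤ) → α) (m l : ℤ) : Prop where
  one : 1 ≤ m
  conv : ∀ x y z, L x = L y → (∀ k, Bt (x k) (y k) (z k)) → L z = L x
  bdd : ∀ x y j, L x = L y → y j - x j < l
  few : ∀ T : Finset (Fin d → ℤ), (∀ p ∈ T, ∀ q ∈ T, ∀ k, p k - q k ≤ m) →
    (T.image L).card ≤ d + 1

variable {L : (Fin d → ℤ) → α} {m l : ℤ}

theorem Lab.pos (h : Lab L m l) (j : Fin d) : 0 < l := by
  simpa using h.bdd 0 0 j rfl

theorem st_zero (p : Fin d → ℤ) (k : Fin d) : st p k 0 = p := by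
  funext j; simp [st]

theorem st_st (p : Fin d → ℤ) (k : Fin d) (s t : ℤ) : st (st p k s) k t = st p k (s + t) := by
  funext j; simp only [st]; split_ifs <;> ring

/-- a label change on a line -/
theorem Lab.cut (h : Lab L m l) (p : Fin d → ℤ) (k : Fin d) :
    ∃ t : ℤ, 0 ≤ t ∧ t < l ∧ L (st p k t) ≠ L (st p k (t + 1)) := by
  by_contra hn
  push Not at hn
  have key : ∀ n : ℕ, (n : ℤ) ≤ l → L (st p k n) = L p := fun n => by
    induction n with
    | zero => intro _; simp [st_zero]
    | succ n ih =>
      intro hn'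
      push_cast at hn' ⊢
      rw [← hn n (by positivity) (by omega), ih (by omega)]
  have h0 := (h.pos k).le
  have h1 := key l.toNat (by omega)
  have h2 := h.bdd _ _ k h1.symm
  simp only [st, if_true] at h2
  omega

/-- The hereditary bound. -/
theorem Lab.her (h : Lab L m l) (I : Finset (Fin d)) (T : Finset (Fin d → ℤ))
    (hT : ∀ p ∈ T, ∀ q ∈ T, ∀ k, p k - q k ≤ m ∧ (k ∉ I → p k = q k)) :
    (T.image L).card ≤ I.card + 1 := by
  induction hn : d - I.card generalizing I T with
  | zero =>
    have h1 := h.few T fun p hp q hq k => (hT p hp q hq k).1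
    omega
  | succ n ih =>
    obtain ⟨j, hj⟩ : ∃ j, j ∉ I := by
      by_contra hc
      push Not at hc
      rw [Finset.eq_univ_iff_forall.2 hc] at hn
      simp only [Finset.card_univ, Fintype.card_fin, tsub_self, reduceCtorEq] at hn
    rcases T.eq_empty_or_nonempty with rfl | ⟨p₀, hp₀⟩
    · simp
    have hex : ∃ t : ℕ, ∃ p ∈ T, L (st p j t) ≠ L (st p j (t + 1)) := by
      obtain ⟨t, h0, -, ht⟩ := h.cut p₀ j
      refine ⟨t.toNat, p₀, hp₀, ?_⟩
      rwa [Int.toNat_of_nonneg h0]
    obtain ⟨p, hp, hpt⟩ := Nat.find_spec hex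
    have hmin : ∀ s : ℕ, s ≤ Nat.find hex → ∀ q ∈ T, L (st q j s) = L q := fun s => by
      induction s with
      | zero => intro _ q _; simp [st_zero]
      | succ s ihs =>
        intro hs q hq
        have h1 := Nat.find_min hex (m := s) (by omega)
        push Not at h1
        push_cast
        rw [← h1 q hq, ihs (by omega) q hq]
    generalize Nat.find hex = t at hpt hmin
    have h1 := h.one
    have key := ih (insert j I) (insert (st p j (t + 1)) (T.image fun q => st q j t)) (by
      intro a ha b hb k
      simp only [Finset.mem_insert, Finset.mem_image] at ha hb ⊢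
      rcases ha with rfl | ⟨a, ha, rfl⟩ <;> rcases hb with rfl | ⟨b, hb, rfl⟩
      · exact ⟨by omega, fun _ => rfl⟩
      · have h2 := hT p hp b hb k
        have h3 := (hT p hp b hb j).2 hj
        simp only [st]
        split_ifs with hk
        · subst hk; exact ⟨by omega, fun h => absurd (Or.inl rfl) h⟩
        · exact ⟨h2.1, fun h => h2.2 fun h' => h (Or.inr h')⟩
      · have h2 := hT a ha p hp k
        have h3 := (hT a ha p hp j).2 hj
        simp only [st]
        split_ifs with hk
        · subst hk; exact ⟨by omega, fun h => absurd (Or.inl rfl) h⟩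
        · exact ⟨h2.1, fun h => h2.2 fun h' => h (Or.inr h')⟩
      · have h2 := hT a ha b hb k
        simp only [st]
        split_ifs with hk
        · subst hk; exact ⟨by omega, fun h => absurd (Or.inl rfl) h⟩
        · exact ⟨h2.1, fun h => h2.2 fun h' => h (Or.inr h')⟩)
      (by rw [Finset.card_insert_of_notMem hj]; omega)
    have e : (T.image fun q => st q j t).image L = T.image L := by
      rw [Finset.image_image]
      exact Finset.image_congr fun q hq => hmin t le_rfl q hq
    rw [Finset.image_insert, e, Finset.card_insert_of_notMem, Finset.card_insert_of_notMem hj]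
      at key
    · omega
    · intro hm
      obtain ⟨q, hq, hq'⟩ := Finset.mem_image.1 hm
      rw [← hmin t le_rfl q hq] at hq'
      refine hpt (h.conv _ _ _ hq'.symm fun k => ?_)
      have h3 := (hT p hp q hq j).2 hj
      simp only [st, Bt]
      split_ifs with hk
      · subst hk; omega
      · omega

/-- The hereditary bound for a family with distinct labels. -/
theorem Lab.her' (h : Lab L m l) (I : Finset (Fin d)) {ι : Type} (S : Finset ι)
    (f : ι → Fin d → ℤ) (h1 : ∀ a ∈ S, ∀ b ∈ S, ∀ k, f a k - f b k ≤ m ∧ (k ∉ I → f a k = f b k))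
    (h2 : ∀ a ∈ S, ∀ b ∈ S, L (f a) = L (f b) → a = b) : S.card ≤ I.card + 1 := by
  have h3 := h.her I (S.image f) (by
    intro p hp q hq k
    obtain ⟨a, ha, rfl⟩ := Finset.mem_image.1 hp
    obtain ⟨b, hb, rfl⟩ := Finset.mem_image.1 hq
    exact h1 a ha b hb k)
  rwa [Finset.image_image, Finset.card_image_of_injOn (f := L ∘ f)
    fun a ha b hb e => h2 a ha b hb e] at h3

/-- Two label changes on one line are far apart. -/
theorem Lab.far_line (h : Lab L m l) (p : Fin d → ℤ) (k : Fin d) {g g' : ℤ} (hg : g < g')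
    (h1 : L (st p k g) ≠ L (st p k (g + 1))) (h2 : L (st p k g') ≠ L (st p k (g' + 1))) :
    g + m ≤ g' := by
  by_contra hn
  have h0 := h.one
  have a1 : L (st p k g) ≠ L (st p k (g' + 1)) := fun e => h1 (h.conv _ _ _ e fun j => by
    simp only [st, Bt]; split_ifs <;> omega).symm
  have a2 : L (st p k (g + 1)) ≠ L (st p k (g' + 1)) := fun e => h2 (h.conv _ _ _ e.symm fun j => by
    simp only [st, Bt]; split_ifs <;> omega)
  have key := h.her' {k} (Finset.univ : Finset (Fin 3))
    (fun a => st p k (![g, g + 1, g' + 1] a)) (by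
      intro a _ b _ j
      simp only [st, Finset.mem_singleton]
      split_ifs with hj
      · refine ⟨?_, fun h => absurd hj h⟩
        fin_cases a <;> fin_cases b <;> simp only [Nat.succ_eq_add_one, Nat.reduceAdd, Fin.zero_eta, Fin.isValue, Matrix.cons_val_zero, sub_self, Fin.mk_one, Matrix.cons_val_one, add_sub_add_left_eq_sub, sub_add_cancel_left, Int.reduceNeg, Fin.reduceFinMk, Matrix.cons_val, tsub_le_iff_right, add_sub_cancel_left, add_sub_add_right_eq_sub, Order.add_one_le_iff] <;> omega
      · exact ⟨by omega, fun _ => rfl⟩) (by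
      intro a _ b _ e
      fin_cases a <;> fin_cases b <;> simp at e ⊢ <;>
        first | exact h1 e | exact h1 e.symm | exact a1 e | exact a1 e.symm | exact a2 e
              | exact a2 e.symm)
  simp at key

/-- Walls complete squares. -/
theorem Lab.square (h : Lab L m l) {i j k : Fin d} (hij : i ≠ j) (hik : i ≠ k) (hjk : j ≠ k)
    (r : Fin d → ℤ) {a b : ℤ} (ha : a = 1 ∨ a = -1) (hb : b = 1 ∨ b = -1)
    (h1 : L (st r j a) ≠ L (st (st r j a) i 1)) (h2 : L (st r k b) ≠ L (st (st r k b) i 1)) :
    L r ≠ L (st r i 1) := by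
  intro e
  have h0 := h.one
  have b1 : L r ≠ L (st r j a) := fun e' => h1 (h.conv _ _ _ (e'.symm.trans e) fun n => by
    simp only [st, Bt]; split_ifs <;> omega).symm
  have b2 : L r ≠ L (st r k b) := fun e' => h2 (h.conv _ _ _ (e'.symm.trans e) fun n => by
    simp only [st, Bt]; split_ifs <;> omega).symm
  have b3 : L r ≠ L (st (st r j a) i 1) := fun e' => h1 ((h.conv _ _ _ e' fun n => by
    simp only [st, Bt]; split_ifs <;> omega).trans e')
  have b4 : L r ≠ L (st (st r k b) i 1) := fun e' => h2 ((h.conv _ _ _ e' fun n => by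
    simp only [st, Bt]; split_ifs <;> omega).trans e')
  have b5 : L (st r j a) ≠ L (st r k b) := fun e' => b1 (h.conv _ _ _ e' fun n => by
    simp only [st, Bt]; split_ifs <;> omega)
  have b6 : L (st r j a) ≠ L (st (st r k b) i 1) := fun e' => b1 (h.conv _ _ _ e' fun n => by
    simp only [st, Bt]; split_ifs <;> omega)
  have b7 : L (st r k b) ≠ L (st (st r j a) i 1) := fun e' => b2 (h.conv _ _ _ e' fun n => by
    simp only [st, Bt]; split_ifs <;> omega)
  have b8 : L (st (st r j a) i 1) ≠ L (st (st r k b) i 1) := fun e' =>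
    b3 (e.trans (h.conv _ _ _ e' fun n => by simp only [st, Bt]; split_ifs <;> omega))
  have key := h.her' {i, j, k} (Finset.univ : Finset (Fin 5))
    ![r, st r j a, st r k b, st (st r j a) i 1, st (st r k b) i 1] (by
      have k1 : ∀ x : Fin 5, ∀ n, r n + min a 0 * (if n = j then 1 else 0) +
          min b 0 * (if n = k then 1 else 0) ≤
            ![r, st r j a, st r k b, st (st r j a) i 1, st (st r k b) i 1] x n ∧
          ![r, st r j a, st r k b, st (st r j a) i 1, st (st r k b) i 1] x n ≤
            r n + min a 0 * (if n = j then 1 else 0) + min b 0 * (if n = k then 1 else 0) + 1 ∧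
          (n ≠ i → n ≠ j → n ≠ k →
            ![r, st r j a, st r k b, st (st r j a) i 1, st (st r k b) i 1] x n = r n) := by
        intro x n
        fin_cases x <;> simp only [st, Fin.zero_eta, Fin.mk_one, Fin.reduceFinMk,
          Matrix.cons_val, implies_true, and_true] <;> split_ifs <;> omega
      intro x _ y _ n
      simp only [Finset.mem_insert, Finset.mem_singleton, not_or]
      have k2 := k1 x n
      have k3 := k1 y n
      exact ⟨by omega, fun hn => (k2.2.2 hn.1 hn.2.1 hn.2.2).trans
        (k3.2.2 hn.1 hn.2.1 hn.2.2).symm⟩) (by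
      intro x _ y _ e'
      fin_cases x <;> fin_cases y <;> simp only [Fin.zero_eta, Fin.mk_one, Fin.reduceFinMk,
        Matrix.cons_val] at e' ⊢ <;> first | rfl | contradiction | exact absurd e'.symm (by assumption))
  have h3 : ({i, j, k} : Finset (Fin d)).card ≤ 3 := Finset.card_le_three
  simp only [Finset.card_univ, Fintype.card_fin] at key
  omega

/-- Counting points that are far apart. -/
theorem count {ι : Type} (S : Finset ι) (f : ι → ℤ) {m l t : ℤ} (hm : 1 ≤ m) (hl : 0 ≤ l)
    (h1 : ∀ a ∈ S, t + m ≤ f a ∧ f a ≤ t + l)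
    (h2 : ∀ a ∈ S, ∀ b ∈ S, a ≠ b → f a + m ≤ f b ∨ f b + m ≤ f a) : S.card * m ≤ l := by
  have h3 : (S.biUnion fun a => Finset.Ioc (f a - m) (f a)).card =
      ∑ a ∈ S, (Finset.Ioc (f a - m) (f a)).card := Finset.card_biUnion fun a ha b hb hab => by
    simp only [Function.onFun, Finset.disjoint_left, Finset.mem_Ioc]
    have := h2 a ha b hb hab
    intro x hx
    omega
  have h4 : (S.biUnion fun a => Finset.Ioc (f a - m) (f a)).card ≤ (Finset.Ioc t (t + l)).card :=
    Finset.card_le_card fun x hx => by
      obtain ⟨a, ha, hx⟩ := Finset.mem_biUnion.1 hx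
      have := h1 a ha
      simp only [Finset.mem_Ioc] at hx ⊢
      omega
  simp only [h3, Int.card_Ioc, sub_sub_cancel, Finset.sum_const, smul_eq_mul,
    add_sub_cancel_left] at h4
  zify at h4
  rwa [Int.toNat_of_nonneg (by omega), Int.toNat_of_nonneg hl] at h4

end Loc

section Cfg


open scoped Classical

variable {d : ℕ} {α : Type} {L : (Fin d → ℤ) → α} {m l : ℤ}

/-- the coordinates of `y` on `Λ` and of `p` off `Λ` -/
def mix (Λ : Finset (Fin d)) (p y : Fin d → ℤ) : Fin d → ℤ := fun k => if k ∈ Λ then y k else p k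

/-- `y` lies in the window -/
def Win (Λ : Finset (Fin d)) (A B y : Fin d → ℤ) : Prop := ∀ k ∈ Λ, A k ≤ y k ∧ y k ≤ B k

/-- One branch more than there are pinned directions; the branches have distinct labels over the
whole window. -/
structure Cfg (L : (Fin d → ℤ) → α) (Λ : Finset (Fin d)) (t : Option (Fin d) → Fin d → ℤ)
    (A B : Fin d → ℤ) : Prop where
  near : ∀ a ∈ Finset.insertNone Λᶜ, ∀ b ∈ Finset.insertNone Λᶜ, ∀ k, k ∉ Λ → t a k - t b k ≤ 1
  sep : ∀ y, Win Λ A B y → ∀ a ∈ Finset.insertNone Λᶜ, ∀ b ∈ Finset.insertNone Λᶜ,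
    L (mix Λ (t a) y) = L (mix Λ (t b) y) → a = b

/-- a label change between the levels `g` and `g + 1` -/
def Cut (L : (Fin d → ℤ) → α) (p : Fin d → ℤ) (k : Fin d) (g : ℤ) : Prop :=
  L (st p k g) ≠ L (st p k (g + 1))

variable {Λ : Finset (Fin d)} {t : Option (Fin d) → Fin d → ℤ} {A B : Fin d → ℤ}

theorem Cfg.sep' (h : Lab L m l) (c : Cfg L Λ t A B) {y y' : Fin d → ℤ} (hy : Win Λ A B y')
    {a b : Option (Fin d)} (ha : a ∈ Finset.insertNone Λᶜ) (hb : b ∈ Finset.insertNone Λᶜ)
    (e : L (mix Λ (t a) y) = L (mix Λ (t b) y')) : a = b :=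
  c.sep y' hy a ha b hb ((h.conv _ _ _ e fun k => by
    simp only [mix, Bt]; split_ifs <;> omega).trans e)

theorem mix_st {k : Fin d} (hk : k ∈ Λ) (p y : Fin d → ℤ) (u : ℤ) :
    mix Λ p (st y k u) = st (mix Λ p y) k u := by
  funext j
  simp only [mix, st]
  split_ifs with h1 h2 h2
  · rfl
  · rfl
  · exact absurd (h2 ▸ hk) h1
  · rfl

theorem Win.mid {y : Fin d → ℤ} {k : Fin d} {u v w : ℤ} (h1 : Win Λ A B (st y k u))
    (h2 : Win Λ A B (st y k v)) (h3 : u ≤ w) (h4 : w ≤ v) : Win Λ A B (st y k w) := fun j hj => by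
  have a := h1 j hj
  have b := h2 j hj
  simp only [st] at a b ⊢
  split_ifs at a b ⊢ <;> omega

theorem Cfg.far (h : Lab L m l) (c : Cfg L Λ t A B) {k : Fin d} (hk : k ∈ Λ) {y : Fin d → ℤ}
    {a b : Option (Fin d)} (ha : a ∈ Finset.insertNone Λᶜ) (hb : b ∈ Finset.insertNone Λᶜ)
    (hab : a ≠ b) {g g' : ℤ} (hg : g ≤ g') (w1 : Win Λ A B (st y k g))
    (w2 : Win Λ A B (st y k (g' + 1))) (h1 : Cut L (mix Λ (t a) y) k g)
    (h2 : Cut L (mix Λ (t b) y) k g') : g + m ≤ g' := by
  by_contra hn
  have h0 := h.one
  obtain ⟨u, hu1, hu2, hu⟩ : ∃ u, g' ≤ u ∧ u ≤ g' + 1 ∧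
      L (st (mix Λ (t b) y) k g) ≠ L (st (mix Λ (t b) y) k u) := by
    by_cases e : L (st (mix Λ (t b) y) k g) = L (st (mix Λ (t b) y) k g')
    · exact ⟨g' + 1, by omega, le_rfl, fun e' => h2 (e.symm.trans e')⟩
    · exact ⟨g', le_rfl, by omega, e⟩
  set br : Option (Fin d) ⊕ Bool → Option (Fin d) := Sum.elim id fun x => if x then a else b
    with hbr
  set lv : Option (Fin d) ⊕ Bool → ℤ := Sum.elim (fun _ => g) fun x => if x then g + 1 else u
    with hlv
  have q1 : ∀ x ∈ (Finset.insertNone Λᶜ).disjSum (Finset.univ : Finset Bool),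
      br x ∈ Finset.insertNone Λᶜ := by
    rintro (x | x) hx
    · simpa only [hbr, Sum.elim_inl, id_eq, Finset.mem_insertNone, Option.mem_def, Finset.mem_compl, Fintype.univ_bool, Finset.inl_mem_disjSum] using hx
    · cases x
      · exact hb
      · exact ha
  have q2 : ∀ x, g ≤ lv x ∧ lv x ≤ g' + 1 := by
    rintro (x | x)
    · exact ⟨le_rfl, by simp only [hlv, Sum.elim_inl]; omega⟩
    · cases x <;> simp only [hlv, Sum.elim_inr] <;> simp only [Bool.false_eq_true, ↓ reduceIte, le_add_iff_nonneg_right, zero_le_one, add_le_add_iff_right, true_and] <;> omega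
  have key := h.her' (insert k Λᶜ) ((Finset.insertNone Λᶜ).disjSum Finset.univ)
    (fun x => st (mix Λ (t (br x)) y) k (lv x)) (by
      intro x hx x' hx' j
      have a1 := q2 x
      have a2 := q2 x'
      have a3 := c.near _ (q1 x hx) _ (q1 x' hx') j
      simp only [st, mix, Finset.mem_insert, Finset.mem_compl, not_or, not_not]
      by_cases hj : j = k
      · subst hj
        simp only [hk, if_true]
        exact ⟨by omega, fun h => absurd trivial h.1⟩
      · by_cases hj' : j ∈ Λ
        · simp only [hj, hj', if_true, if_false]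
          exact ⟨by omega, fun _ => trivial⟩
        · simp only [hj, hj', if_false]
          exact ⟨by have := a3 hj'; omega, fun h => h.2.elim⟩) (by
      intro x hx x' hx' e
      have e' := e
      simp only [← mix_st hk] at e'
      have hb' := c.sep' h (w1.mid w2 (q2 x').1 (q2 x').2) (q1 x hx) (q1 x' hx') e'
      rcases x with x | x <;> rcases x' with x' | x'
      · exact congrArg Sum.inl hb'
      · cases x'
        · obtain rfl : x = b := hb'
          exact absurd e hu
        · obtain rfl : x = a := hb'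
          exact absurd e h1
      · cases x
        · obtain rfl : b = x' := hb'
          exact absurd e.symm hu
        · obtain rfl : a = x' := hb'
          exact absurd e.symm h1
      · cases x <;> cases x'
        · rfl
        · exact absurd hb'.symm hab
        · exact absurd hb' hab
        · rfl)
  rw [Finset.card_disjSum, Finset.card_insertNone,
    Finset.card_insert_of_notMem (by simpa using hk)] at key
  simp at key

/-- The final count. -/
theorem Cfg.fin (h : Lab L m l) (c : Cfg L Λ t A B) {k : Fin d} (hk : k ∈ Λ) {y : Fin d → ℤ}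
    {t₀ : ℤ} (w1 : Win Λ A B (st y k (t₀ + 1))) (w2 : Win Λ A B (st y k (t₀ + l + 1)))
    {S : Finset (Option (Fin d))} (hS : S ⊆ Finset.insertNone Λᶜ) (G : Finset ℤ)
    (h1 : ∀ a ∈ S, ∀ g, t₀ < g → g ≤ t₀ + l → Cut L (mix Λ (t a) y) k g →
      t₀ + m ≤ g ∧ ∀ g' ∈ G, g + m ≤ g' ∨ g' + m ≤ g)
    (h2 : ∀ g ∈ G, t₀ + m ≤ g ∧ g ≤ t₀ + l)
    (h3 : ∀ g ∈ G, ∀ g' ∈ G, g ≠ g' → g + m ≤ g' ∨ g' + m ≤ g) :
    ((S.card + G.card : ℕ) : ℤ) * m ≤ l := by
  have hc : ∀ a, ∃ g, t₀ < g ∧ g ≤ t₀ + l ∧ Cut L (mix Λ (t a) y) k g := fun a => by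
    obtain ⟨u, u1, u2, u3⟩ := h.cut (st (mix Λ (t a) y) k (t₀ + 1)) k
    rw [st_st, st_st, ← add_assoc] at u3
    exact ⟨t₀ + 1 + u, by omega, by omega, u3⟩
  choose f f1 f2 f3 using hc
  rw [← Finset.card_disjSum]
  refine count (S.disjSum G) (Sum.elim f id) h.one (h.pos k).le (t := t₀) ?_ ?_
  · rintro (a | g) ha
    · exact ⟨(h1 a (by simpa using ha) _ (f1 a) (f2 a) (f3 a)).1, f2 a⟩
    · exact h2 g (by simpa using ha)
  · rintro (a | g) ha (b | g') hb hab
    · have ha' : a ∈ S := by simpa using ha
      have hb' : b ∈ S := by simpa using hb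
      have hne : a ≠ b := fun e => hab (congrArg _ e)
      have a1 := f1 a
      have a2 := f2 a
      have b1 := f1 b
      have b2 := f2 b
      show f a + m ≤ f b ∨ f b + m ≤ f a
      rcases le_total (f a) (f b) with hle | hle
      · exact Or.inl (c.far h hk (hS ha') (hS hb') hne hle (w1.mid w2 (by omega) (by omega))
          (w1.mid w2 (by omega) (by omega)) (f3 a) (f3 b))
      · exact Or.inr (c.far h hk (hS hb') (hS ha') hne.symm hle (w1.mid w2 (by omega) (by omega))
          (w1.mid w2 (by omega) (by omega)) (f3 b) (f3 a))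
    · exact (h1 a (by simpa using ha) _ (f1 a) (f2 a) (f3 a)).2 g' (by simpa using hb)
    · exact ((h1 b (by simpa using hb) _ (f1 b) (f2 b) (f3 b)).2 g (by simpa using ha)).symm
    · exact h3 g (by simpa using ha) g' (by simpa using hb) fun e => hab (congrArg _ e)

/-- One free direction. -/
theorem Cfg.base (h : Lab L m l) {x : Fin d} (c : Cfg L {x} t A B) (hl : A x + 2 * l ≤ B x) :
    d * m ≤ l := by
  have hx : x ∈ ({x} : Finset (Fin d)) := Finset.mem_singleton_self x
  have hp := h.pos x
  obtain ⟨u, u1, u2, u3⟩ := h.cut (mix {x} (t none) A) x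
  have w : ∀ v, 0 ≤ v → v ≤ 2 * l → Win {x} A B (st A x v) := fun v v1 v2 j hj => by
    obtain rfl := Finset.mem_singleton.1 hj
    simp only [st, if_true]
    omega
  have key := c.fin h hx (t₀ := u) (w _ (by omega) (by omega)) (w _ (by omega) (by omega))
    (Finset.Subset.refl _) ∅ (fun a ha g g1 g2 g3 => ⟨by
      by_cases e : a = none
      · subst e
        exact h.far_line _ x g1 u3 g3
      · exact c.far h hx (Finset.none_mem_insertNone) ha (Ne.symm e) g1.le
          (w _ (by omega) (by omega)) (w _ (by omega) (by omega)) u3 g3, by simp⟩)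
    (by simp) (by simp)
  rw [Finset.card_insertNone, Finset.card_compl, Finset.card_singleton, Fintype.card_fin,
    Finset.card_empty, add_zero, Nat.sub_add_cancel (Nat.succ_le_of_lt (Fin.pos x))] at key
  exact key

/-- the branches of the extended configuration -/
def ext (Λ K : Finset (Fin d)) (t : Option (Fin d) → Fin d → ℤ) (c s : Fin d → ℤ) :
    Option (Fin d) → Fin d → ℤ
  | none => c
  | some k => if k ∈ K then st c k (s k) else mix Λ (t (some k)) c

theorem Cfg.extend (h : Lab L m l) (c : Cfg L Λ t A B) {K : Finset (Fin d)} (hK : K ⊆ Λ)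
    {p s A' B' : Fin d → ℤ} (h1 : ∀ k, k ∉ Λ → p k = t none k)
    (h2 : ∀ k ∈ K, (s k = 1 ∨ s k = -1) ∧ A k ≤ p k ∧ p k ≤ B k ∧ A k ≤ p k + s k ∧
      p k + s k ≤ B k) (h3 : ∀ k ∈ Λ, k ∉ K → A k ≤ A' k ∧ B' k ≤ B k)
    (h4 : ∀ y, Win (Λ \ K) A' B' y → ∀ k ∈ K,
      L (mix (Λ \ K) p y) ≠ L (st (mix (Λ \ K) p y) k (s k))) :
    Cfg L (Λ \ K) (ext Λ K t p s) A' B' := by
  set ob : Option (Fin d) → Option (Fin d) := fun a => if ∃ k ∈ K, a = some k then none else a
    with hob
  have q1 : ∀ a ∈ Finset.insertNone (Λ \ K)ᶜ, ob a ∈ Finset.insertNone Λᶜ := by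
    rintro (_ | k) ha
    · simp only [hob, ite_self, Finset.mem_insertNone, Option.mem_def, reduceCtorEq, Finset.mem_compl, IsEmpty.forall_iff, implies_true]
    · by_cases hk : k ∈ K
      · simp only [hob, Option.some.injEq, exists_eq_right', hk, ↓ reduceIte, Finset.mem_insertNone, Option.mem_def, reduceCtorEq, Finset.mem_compl, IsEmpty.forall_iff, implies_true]
      · simpa only [hob, Option.some.injEq, exists_eq_right', hk, ↓ reduceIte, Finset.mem_insertNone, Option.mem_def, Finset.mem_compl, forall_eq', Finset.mem_sdiff, not_and, Decidable.not_not, imp_false] using ha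
  have q2 : ∀ a k, k ∉ Λ → ext Λ K t p s a k = t (ob a) k := by
    rintro (_ | j) k hk
    · simpa only [ext, hob, ite_self] using h1 k hk
    · by_cases hj : j ∈ K
      · have : k ≠ j := fun e => hk (e ▸ hK hj)
        simpa only [ext, hj, ↓ reduceIte, st, this, hob, Option.some.injEq, exists_eq_right'] using h1 k hk
      · simp only [ext, hj, ↓ reduceIte, mix, hk, hob, Option.some.injEq, exists_eq_right']
  have q3 : ∀ a, ∀ k ∈ K, ext Λ K t p s a k = p k ∨ ext Λ K t p s a k = p k + s k := by
    rintro (_ | j) k hk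
    · exact Or.inl rfl
    · by_cases hj : j ∈ K
      · by_cases e : k = j
        · subst e; simp [ext, hj, st]
        · simp [ext, hj, st, e]
      · simp [ext, hj, mix, hK hk]
  refine ⟨fun a ha b hb k hk => ?_, fun y hy a ha b hb e => ?_⟩
  · by_cases hk' : k ∈ Λ
    · have hkK : k ∈ K := by simpa [hk'] using hk
      have := h2 k hkK
      have := q3 a k hkK
      have := q3 b k hkK
      omega
    · rw [q2 a k hk', q2 b k hk']
      exact c.near _ (q1 a ha) _ (q1 b hb) k hk'
  · have q4 : ∀ a, mix (Λ \ K) (ext Λ K t p s a) y =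
        mix Λ (t (ob a)) (mix (Λ \ K) (ext Λ K t p s a) y) := fun a => by
      funext k
      by_cases hk : k ∈ Λ
      · simp [mix, hk]
      · simp [mix, hk, q2 a k hk]
    have q5 : Win Λ A B (mix (Λ \ K) (ext Λ K t p s b) y) := fun k hk => by
      by_cases hk' : k ∈ K
      · have := h2 k hk'
        have := q3 b k hk'
        simp only [mix, Finset.mem_sdiff, hk', not_true, and_false, if_false]
        omega
      · have := h3 k hk hk'
        have := hy k (Finset.mem_sdiff.2 ⟨hk, hk'⟩)
        simp only [mix, Finset.mem_sdiff, hk, hk', not_false_iff, and_self, if_true]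
        omega
    have q6 := c.sep' h q5 (q1 a ha) (q1 b hb) ((q4 a ▸ q4 b ▸ e :))
    have q7 : ∀ k ∈ K, mix (Λ \ K) (ext Λ K t p s (some k)) y =
        st (mix (Λ \ K) p y) k (s k) := fun k hk => by
      funext j
      by_cases e : j = k
      · subst e; simp [mix, ext, hk, st]
      · simp [mix, ext, hk, st, e]
    have q8 : mix (Λ \ K) (ext Λ K t p s none) y = mix (Λ \ K) p y := rfl
    rcases a with _ | j <;> rcases b with _ | k
    · rfl
    · by_cases hk : k ∈ K
      · rw [q7 k hk, q8] at e
        exact absurd e (h4 y hy k hk)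
      · simp only [hob, ite_self, Option.some.injEq, exists_eq_right', hk, ↓ reduceIte, reduceCtorEq] at q6
    · by_cases hj : j ∈ K
      · rw [q7 j hj, q8] at e
        exact absurd e.symm (h4 y hy j hj)
      · simp only [hob, Option.some.injEq, exists_eq_right', hj, ↓ reduceIte, ite_self, reduceCtorEq] at q6
    · by_cases hj : j ∈ K <;> by_cases hk : k ∈ K
      · by_contra hne
        have hne' : j ≠ k := fun e => hne (congrArg _ e)
        rw [q7 j hj, q7 k hk] at e
        exact h4 y hy j hj (h.conv _ _ _ e fun n => by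
          simp only [st, Bt]; split_ifs <;> omega)
      · simp only [hob, Option.some.injEq, exists_eq_right', hj, ↓ reduceIte, hk, reduceCtorEq] at q6
      · simp only [hob, Option.some.injEq, exists_eq_right', hj, ↓ reduceIte, hk, reduceCtorEq] at q6
      · simpa only [Option.some.injEq, hob, exists_eq_right', hj, ↓ reduceIte, hk] using q6

end Cfg

section Plate


open scoped Classical

variable {d : ℕ} {α : Type} {L : (Fin d → ℤ) → α} {m l N : ℤ}

/-- `p` lies in the box -/
def In (lo hi p : Fin d → ℤ) : Prop := ∀ k, lo k ≤ p k ∧ p k ≤ hi k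

/-- a box of walls in direction `i` -/
structure Pl (L : (Fin d → ℤ) → α) (N : ℤ) (Λ : Finset (Fin d)) (q : Fin d → ℤ) (i : Fin d)
    (lo hi : Fin d → ℤ) : Prop where
  mem : i ∈ Λ
  eq : lo i = hi i
  lt : hi i + 1 ≤ N
  off : ∀ k, k ∉ Λ → lo k = q k ∧ hi k = q k
  win : ∀ k ∈ Λ, 0 ≤ lo k ∧ lo k ≤ hi k ∧ hi k ≤ N
  wall : ∀ p, In lo hi p → L p ≠ L (st p i 1)

/-- a box of walls that ends at all its faces inside the window -/
structure Mx (L : (Fin d → ℤ) → α) (N : ℤ) (Λ : Finset (Fin d)) (q : Fin d → ℤ) (i : Fin d)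
    (lo hi : Fin d → ℤ) : Prop extends Pl L N Λ q i lo hi where
  stop : ∀ k ∈ Λ, k ≠ i → ∀ p, In lo hi p → ∀ s, s = 1 ∨ s = -1 →
    p k + s < lo k ∨ hi k < p k + s → 0 ≤ p k + s → p k + s ≤ N →
      L (st p k s) = L (st (st p k s) i 1)

variable {Λ : Finset (Fin d)} {q lo hi : Fin d → ℤ} {i : Fin d}

theorem Pl.le (P : Pl L N Λ q i lo hi) (k : Fin d) : lo k ≤ hi k := by
  by_cases hk : k ∈ Λ
  · exact (P.win k hk).2.1
  · have := P.off k hk
    omega

theorem box_conn {φ : (Fin d → ℤ) → Prop}
    (hφ : ∀ p j a, a = 1 ∨ a = -1 → In lo hi p → In lo hi (st p j a) → φ (st p j a) → φ p)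
    {p p' : Fin d → ℤ} (hp : In lo hi p) (hp' : In lo hi p') (h : φ p') : φ p := by
  induction hn : ∑ j, (p j - p' j).natAbs using Nat.strong_induction_on generalizing p with
  | _ n ih =>
    by_cases e : p = p'
    · exact e ▸ h
    obtain ⟨j, hj⟩ := Function.ne_iff.1 e
    obtain ⟨a, ha, ha'⟩ : ∃ a : ℤ, (a = 1 ∨ a = -1) ∧ Bt (p j) (p' j) (p j + a) := by
      rcases lt_or_gt_of_ne hj with h | h
      · exact ⟨1, Or.inl rfl, by simp only [Bt]; omega⟩
      · exact ⟨-1, Or.inr rfl, by simp only [Bt]; omega⟩
    have hin : In lo hi (st p j a) := fun k => by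
      have := hp k
      have := hp' k
      simp only [st, Bt] at ha' ⊢
      split_ifs with hk
      · subst hk; omega
      · omega
    refine hφ p j a ha hp hin (ih _ ?_ hin rfl)
    rw [← hn]
    refine Finset.sum_lt_sum (fun k _ => ?_) ⟨j, Finset.mem_univ j, ?_⟩
    · simp only [st, Bt] at ha' ⊢
      split_ifs with hk
      · subst hk; omega
      · omega
    · simp only [st, Bt, if_true] at ha' ⊢
      omega

theorem Pl.grow (h : Lab L m l) (P : Pl L N Λ q i lo hi) {k : Fin d} (hk : k ∈ Λ) (hki : k ≠ i)
    {p : Fin d → ℤ} (hp : In lo hi p) {s : ℤ} (hs : s = 1 ∨ s = -1)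
    (h1 : p k + s < lo k ∨ hi k < p k + s) (h2 : 0 ≤ p k + s) (h3 : p k + s ≤ N)
    (h4 : L (st p k s) ≠ L (st (st p k s) i 1)) :
    Pl L N Λ q i (st lo k (min s 0)) (st hi k (max s 0)) := by
  have hpk := hp k
  have key : ∀ p', In lo hi p' → p' k = p k → L (st p' k s) ≠ L (st (st p' k s) i 1) := by
    intro p' hp' e
    refine box_conn (lo := fun j => if j = k then p k else lo j)
      (hi := fun j => if j = k then p k else hi j)
      (φ := fun r => L (st r k s) ≠ L (st (st r k s) i 1)) (p' := p) ?_ ?_ ?_ h4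
    · intro r j a ha hr hr' hφ
      have hjk : j ≠ k := by
        rintro rfl
        have a1 := hr j
        have a2 := hr' j
        simp only [st, if_true] at a1 a2
        omega
      have hji : j ≠ i := by
        rintro rfl
        have a1 := hr j
        have a2 := hr' j
        have a3 := P.eq
        simp only [st, if_true, hjk, if_false] at a1 a2
        omega
      refine h.square hji.symm hki.symm hjk (st r k s) (b := -s) ha (by omega) ?_ ?_
      · have e : st (st r k s) j a = st (st r j a) k s := by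
          funext n; simp only [st]; split_ifs <;> omega
        rw [e]
        exact hφ
      · rw [st_st, add_neg_cancel, st_zero]
        refine P.wall r fun n => ?_
        have a1 := hr n
        dsimp only at a1
        split_ifs at a1 with hn
        · subst hn; omega
        · exact a1
    · intro n
      have := hp' n
      dsimp only
      split_ifs with hn
      · subst hn; omega
      · exact this
    · intro n
      have := hp n
      dsimp only
      split_ifs with hn
      · subst hn; omega
      · exact this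
  refine ⟨P.mem, ?_, ?_, fun j hj => ?_, fun j hj => ?_, fun r hr => ?_⟩
  · simpa [st, hki.symm] using P.eq
  · simpa [st, hki.symm] using P.lt
  · have : j ≠ k := fun e => hj (e ▸ hk)
    simpa [st, this] using P.off j hj
  · have := P.win j hj
    simp only [st]
    split_ifs with hn
    · subst hn; omega
    · exact this
  · have hrk := hr k
    simp only [st, if_true] at hrk
    by_cases e : lo k ≤ r k ∧ r k ≤ hi k
    · refine P.wall r fun n => ?_
      have a1 := hr n
      simp only [st] at a1
      split_ifs at a1 with hn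
      · subst hn; exact e
      · exact a1
    · have a2 := key (st r k (-s)) (fun n => by
        have a1 := hr n
        simp only [st] at a1 ⊢
        split_ifs at a1 ⊢ with hn
        · subst hn; omega
        · exact a1) (by simp only [st, if_true]; omega)
      rwa [st_st, neg_add_cancel, st_zero] at a2

theorem Pl.exists_mx (h : Lab L m l) (P : Pl L N Λ q i lo hi) :
    ∃ lo' hi', Mx L N Λ q i lo' hi' ∧ ∀ k, lo' k ≤ lo k ∧ hi k ≤ hi' k := by
  induction hn : ∑ k ∈ Λ, (N - hi k + lo k).toNat using Nat.strong_induction_on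
    generalizing lo hi with
  | _ n ih =>
    by_cases hs : ∀ k ∈ Λ, k ≠ i → ∀ p, In lo hi p → ∀ s, s = 1 ∨ s = -1 →
        p k + s < lo k ∨ hi k < p k + s → 0 ≤ p k + s → p k + s ≤ N →
          L (st p k s) = L (st (st p k s) i 1)
    · exact ⟨lo, hi, ⟨P, hs⟩, fun k => ⟨le_rfl, le_rfl⟩⟩
    push Not at hs
    obtain ⟨k, hk, hki, p, hp, s, hs, h1, h2, h3, h4⟩ := hs
    have P' := P.grow h hk hki hp hs h1 h2 h3 h4
    obtain ⟨lo', hi', M, hM⟩ := ih _ (by
      rw [← hn]
      refine Finset.sum_lt_sum (fun j _ => ?_) ⟨k, hk, ?_⟩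
      · simp only [st]; split_ifs <;> omega
      · have := P'.win k hk
        simp only [st, if_true] at this ⊢
        omega) P' rfl
    refine ⟨lo', hi', M, fun j => ?_⟩
    have := hM j
    simp only [st] at this
    split_ifs at this <;> omega

/-- A maximal plate contains every plate that meets it. -/
theorem Mx.absorb {lo' hi' : Fin d → ℤ} (M : Mx L N Λ q i lo hi) (P : Pl L N Λ q i lo' hi')
    {p : Fin d → ℤ} (hp : In lo hi p) (hp' : In lo' hi' p) (k : Fin d) :
    lo k ≤ lo' k ∧ hi' k ≤ hi k := by
  have a1 := hp k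
  have a2 := hp' k
  by_cases hk : k ∈ Λ
  swap
  · have := M.off k hk
    have := P.off k hk
    omega
  by_cases hki : k = i
  · subst hki
    have := M.eq
    have := P.eq
    omega
  have a3 := P.win k hk
  have key : ∀ v s, s = 1 ∨ s = -1 → lo k ≤ v → v ≤ hi k → v + s < lo k ∨ hi k < v + s →
      lo' k ≤ v + s → v + s ≤ hi' k → False := fun v s hs v1 v2 v3 v4 v5 => by
    refine P.wall (st (st p k (v - p k)) k s) (fun n => ?_)
      (M.stop k hk hki (st p k (v - p k)) (fun n => ?_) s hs ?_ ?_ ?_)
    · have := hp' n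
      simp only [st]
      split_ifs with hn
      · subst hn; omega
      · exact this
    · have := hp n
      simp only [st]
      split_ifs with hn
      · subst hn; omega
      · exact this
    all_goals simp only [st, if_true]; omega
  constructor
  · by_contra hc
    exact key (lo k) (-1) (by omega) (by omega) (by omega) (by omega) (by omega) (by omega)
  · by_contra hc
    exact key (hi k) 1 (by omega) (by omega) (by omega) (by omega) (by omega) (by omega)

/-- Where a plate ends there is a wall on both sides. -/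
theorem Mx.cut (h : Lab L m l) (M : Mx L N Λ q i lo hi) {k : Fin d} (hk : k ∈ Λ) (hki : k ≠ i)
    {p : Fin d → ℤ} (hp : In lo hi p) {s : ℤ} (hs : s = 1 ∨ s = -1)
    (h1 : p k + s < lo k ∨ hi k < p k + s) (h2 : 0 ≤ p k + s) (h3 : p k + s ≤ N) :
    L p ≠ L (st p k s) ∧ L (st p i 1) ≠ L (st (st p i 1) k s) := by
  have e := M.stop k hk hki p hp s hs h1 h2 h3
  have e2 : st (st p i 1) k s = st (st p k s) i 1 := by
    funext n; simp only [st]; split_ifs <;> omega
  refine ⟨fun e' => M.wall p hp (h.conv _ _ _ (e'.trans e) fun n => ?_).symm, fun e' => ?_⟩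
  · simp only [st, Bt]; split_ifs <;> omega
  · rw [e2, ← e] at e'
    refine M.wall p hp (h.conv _ _ _ e' fun n => ?_)
    simp only [st, Bt]; split_ifs <;> omega

/-- `v` is the end of the box in direction `k` on the side `s`, inside the window -/
def En (N : ℤ) (lo hi : Fin d → ℤ) (k : Fin d) (s v : ℤ) : Prop :=
  (s = 1 ∧ v = hi k ∧ v < N) ∨ (s = -1 ∧ v = lo k ∧ 0 < v)

/-- The plate on which a plate ends. -/
theorem Mx.face (h : Lab L m l) (M : Mx L N Λ q i lo hi) {k : Fin d} (hk : k ∈ Λ) (hki : k ≠ i)
    {s v : ℤ} (hv : En N lo hi k s v) :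
    Pl L N Λ q k (fun j => if j = k then min v (v + s) else lo j)
      fun j => if j = k then min v (v + s) else if j = i then hi j + 1 else hi j := by
  have a1 := M.win k hk
  have a2 := M.eq
  have a3 := M.lt
  simp only [En] at hv
  refine ⟨hk, by simp only [↓ reduceIte], by simp only [if_true]; omega, fun j hj => ?_, fun j hj => ?_,
    fun r hr => ?_⟩
  · have h1 : j ≠ k := fun e => hj (e ▸ hk)
    have h2 : j ≠ i := fun e => hj (e ▸ M.mem)
    simpa [h1, h2] using M.off j hj
  · have := M.win j hj
    split_ifs with h1 h2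
    · omega
    · subst h2; omega
    · exact this
  · have hri := hr i
    have hrk := hr k
    simp only [hki.symm, if_true, if_false] at hri hrk
    have key := M.cut h hk hki (p := fun j => if j = k then v else if j = i then lo j else r j)
      (s := s) (fun n => by
        have := hr n
        dsimp only at this ⊢
        split_ifs at this ⊢ with h1 h2
        · subst h1; omega
        · subst h2; omega
        · exact this) (by omega) (by simp only [if_true]; omega) (by simp only [if_true]; omega)
      (by simp only [if_true]; omega)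
    have c : ∀ {a b a' b' : Fin d → ℤ}, L a ≠ L b → a' = a → b' = b → L a' ≠ L b' :=
      fun h e1 e2 => e1 ▸ e2 ▸ h
    by_cases e1 : r i = lo i <;> rcases hv with hv | hv
    · refine c key.1 (funext fun n => ?_) (funext fun n => ?_) <;>
        (try simp only [st]) <;>
        split_ifs <;> subst_vars <;> omega
    · refine c key.1.symm (funext fun n => ?_) (funext fun n => ?_) <;>
        (try simp only [st]) <;>
        split_ifs <;> subst_vars <;> omega
    · refine c key.2 (funext fun n => ?_) (funext fun n => ?_) <;>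
        (try simp only [st]) <;>
        split_ifs <;> subst_vars <;> omega
    · refine c key.2.symm (funext fun n => ?_) (funext fun n => ?_) <;>
        (try simp only [st]) <;>
        split_ifs <;> subst_vars <;> omega

theorem Mx.up (h : Lab L m l) (M : Mx L N Λ q i lo hi) {k : Fin d} (hk : k ∈ Λ) (hki : k ≠ i)
    {s v : ℤ} (hv : En N lo hi k s v) :
    ∃ lo' hi', Mx L N Λ q k lo' hi' ∧ lo' k = min v (v + s) ∧ hi i + 1 ≤ hi' i ∧
      ∀ j, j ≠ k → lo' j ≤ lo j ∧ hi j ≤ hi' j := by
  obtain ⟨lo', hi', R, hR⟩ := (M.face h hk hki hv).exists_mx h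
  refine ⟨lo', hi', R, ?_, ?_, fun j hj => ?_⟩
  · have := hR k
    have := R.eq
    simp only [if_true] at *
    omega
  · simpa [hki.symm] using (hR i).2
  · have := hR j
    simp only [hj, if_false] at this
    split_ifs at this <;> omega

end Plate

section Main


open scoped Classical

variable {d : ℕ} {α : Type} {L : (Fin d → ℤ) → α} {m l N : ℤ} {Λ : Finset (Fin d)}
  {q : Fin d → ℤ}

theorem exists_en {lo hi : Fin d → ℤ} {k : Fin d} (h : 0 < lo k ∨ hi k < N) :
    ∃ s v, En N lo hi k s v := by
  rcases h with h | h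
  · exact ⟨-1, lo k, Or.inr ⟨rfl, rfl, h⟩⟩
  · exact ⟨1, hi k, Or.inl ⟨rfl, rfl, h⟩⟩

theorem Lab.exists_pl (h : Lab L m l) (q : Fin d → ℤ) {i : Fin d} (hi : i ∈ Λ) {w : ℤ}
    (h0 : 0 ≤ w) (h1 : w + l ≤ N) :
    ∃ lo hi, Mx L N Λ q i lo hi ∧ w ≤ lo i ∧ lo i < w + l := by
  obtain ⟨u, u1, u2, u3⟩ := h.cut (st (mix Λ q 0) i w) i
  rw [← st_st _ i u 1] at u3
  have e : st (st (mix Λ q 0) i w) i u i = w + u := by simp [st, mix, hi]
  have P : Pl L N Λ q i (st (st (mix Λ q 0) i w) i u) (st (st (mix Λ q 0) i w) i u) := by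
    refine ⟨hi, rfl, by omega, fun k hk => ?_, fun k hk => ?_, fun p hp => ?_⟩
    · have : k ≠ i := fun e => hk (e ▸ hi)
      simp [st, mix, hk, this]
    · simp only [st, mix, hk, if_true, Pi.zero_apply]
      split_ifs <;> omega
    · obtain rfl : p = _ := funext fun k => le_antisymm (hp k).2 (hp k).1
      exact u3
  obtain ⟨lo, hi', M, hM⟩ := P.exists_mx h
  have := hM i
  have := M.eq
  exact ⟨lo, hi', M, by omega, by omega⟩

/-- With three free directions some plate crosses the whole window. -/
theorem Lab.three (h : Lab L m l) (hN : l ≤ N) (h3 : 3 ≤ Λ.card)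
    (H : ∀ i lo hi, Mx L N Λ q i lo hi → ∀ k ∈ Λ, k ≠ i → 0 < lo k ∨ hi k < N) : False := by
  have two : ∀ a b : Fin d, ∃ c ∈ Λ, c ≠ a ∧ c ≠ b := fun a b => by
    by_contra hc
    push Not at hc
    have h1 : Λ ⊆ {a, b} := fun c hc' => by
      by_cases e : c = a
      · simp [e]
      · simp [hc c hc' e]
    have h2 := Finset.card_le_card h1
    have h4 : ({a, b} : Finset (Fin d)).card ≤ 2 := Finset.card_le_two
    omega
  obtain ⟨M, ⟨x, lo, hi, y, P, hy, hyx, hM⟩, hmax⟩ := Int.exists_greatest_of_bdd
    (P := fun n => ∃ i lo hi y, Mx L N Λ q i lo hi ∧ y ∈ Λ ∧ y ≠ i ∧ hi y - lo y = n)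
    ⟨N, fun n ⟨i, lo, hi, y, P, hy, _, e⟩ => by have := P.win y hy; omega⟩ (by
      obtain ⟨i, hi⟩ := Finset.card_pos.1 (by omega : 0 < Λ.card)
      obtain ⟨lo, hi', P, -⟩ := h.exists_pl (N := N) q hi le_rfl (by omega)
      obtain ⟨y, hy, hyi, -⟩ := two i i
      exact ⟨_, i, lo, hi', y, P, hy, hyi, rfl⟩)
  obtain ⟨s, v, hv⟩ := exists_en (H x lo hi P y hy hyx)
  obtain ⟨lY, hY, Y, y1, y2, y3⟩ := P.up h hy hyx hv
  have step : ∀ n : ℕ, ∀ (x z : Fin d) (σ τ a b : ℤ) (lo' hi' : Fin d → ℤ), z ∈ Λ → x ≠ y →
      z ≠ y → z ≠ x → En N lY hY x σ a → En N lY hY z τ b → Mx L N Λ q x lo' hi' →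
      lo' y = lo y → hi' y = hi y → (∀ j, j ≠ y → lY j ≤ lo' j ∧ hi' j ≤ hY j) →
      hi' x + 1 ≤ hY x → 4 * N + 2 ≤ n + (if σ = 1 then 2 * lo' x + 1 else -(2 * lo' x + 1)) +
        (if τ = 1 then 2 * hi' z else -(2 * lo' z)) → False := by
    intro n
    induction n with
    | zero =>
      intro x z σ τ a b lo' hi' hz _ _ _ _ _ Q _ _ _ _ e
      have := Q.win x Q.mem
      have := Q.win z hz
      split_ifs at e <;> omega
    | succ n ih =>
      intro x z σ τ a b lo' hi' hz hxy hzy hzx ea eb Q e1 e2 e3 e4 e
      have c1 := e3 z hzy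
      have c2 := Q.win z hz
      have hu : En N lo' hi' z τ (if τ = 1 then hi' z else lo' z) := by
        simp only [En] at eb ⊢
        split_ifs <;> omega
      obtain ⟨lR, hR, R, r1, r2, r3⟩ := Q.up h hz hzx hu
      have c3 := r3 y hzy.symm
      have c4 := hmax _ ⟨z, lR, hR, y, R, hy, hzy.symm, rfl⟩
      have d1 : lR y = lo y := by omega
      have d2 : hR y = hi y := by omega
      have hv' : En N lR hR y s v := by
        simp only [En, d1, d2]
        exact hv
      have c5 := r3 x hzx.symm
      have c6 := Q.eq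
      have c7 := R.eq
      have c8 := Y.eq
      have ab := Y.absorb (R.face h hy hzy.symm hv')
        (p := fun j => if j = y then min v (v + s) else
          if j = z then (if τ = 1 then hi' z else lo' z) else lo' j) (fun j => by
          by_cases j1 : j = y
          · subst j1; simp only [if_true]; omega
          · have := e3 j j1
            have := Q.le j
            simp only [j1, if_false]
            split_ifs <;> subst_vars <;> omega) (fun j => by
          by_cases j1 : j = y
          · subst j1; simp only [if_true]; omega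
          · by_cases j2 : j = z
            · subst j2
              simp only [En] at hu
              simp only [j1, if_true, if_false]
              omega
            · have := r3 j j2
              have := Q.le j
              simp only [j1, j2, if_false]
              omega)
      refine ih z x τ σ b a lR hR Q.mem hzy hxy hzx.symm eb ea R d1 d2
        (fun j hj => ?_) ?_ ?_
      · have := ab j
        simp only [hj, if_false] at this
        split_ifs at this <;> omega
      · simpa [hzy] using (ab z).2
      · simp only [En] at ea eb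
        push_cast at e
        split_ifs at e r1 ⊢ <;> omega
  obtain ⟨z, hz, hzx, hzy⟩ := two x y
  obtain ⟨σ, a, ea⟩ := exists_en (H y lY hY Y x P.mem hyx.symm)
  obtain ⟨τ, b, eb⟩ := exists_en (H y lY hY Y z hz hzy)
  refine step (8 * N + 4).toNat x z σ τ a b lo hi hz hyx.symm hzy hzx ea eb P rfl rfl y3 y2 ?_
  have := P.win x P.mem
  have := P.win z hz
  split_ifs <;> omega

/-- Two free directions, pinwheels. -/
theorem Cfg.two (h : Lab L m l) {t : Option (Fin d) → Fin d → ℤ} {x y : Fin d} (hxy : y ≠ x)
    (c : Cfg L {x, y} t 0 fun _ => 4 * l)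
    (H : ∀ lo hi, Mx L (4 * l) {x, y} (t none) x lo hi → 0 < lo y ∨ hi y < 4 * l) :
    d * m ≤ l := by
  have hx : x ∈ ({x, y} : Finset (Fin d)) := by simp
  have hy : y ∈ ({x, y} : Finset (Fin d)) := by simp
  have hp := h.pos x
  have h1 := h.one
  obtain ⟨lo, hi, P, p1, p2⟩ := h.exists_pl (N := 4 * l) (t none) hx (w := 2 * l) (by omega)
    (by omega)
  obtain ⟨s, v, hv⟩ := exists_en (H lo hi P)
  obtain ⟨lR, hR, R, r1, r2, r3⟩ := P.up h hy hxy hv
  have c1 := r3 x hxy.symm
  have c2 := P.eq
  have c3 := P.win y hy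
  have c4 := R.win x hx
  have c5 := R.eq
  set y₀ : Fin d → ℤ := fun j => if j = y then v else 0 with hy₀
  set p : Fin d → ℤ := mix {x, y} (t none) y₀ with hp'
  have px : p x = 0 := by simp [hp', mix, hy₀, hxy.symm]
  have py : p y = v := by simp [hp', mix, hy₀]
  have po : ∀ k, k ∉ ({x, y} : Finset (Fin d)) → p k = t none k := fun k hk => by
    simp only [hp', mix, hk, if_false]
  simp only [En] at hv
  have inR : ∀ u, lR x ≤ u → u ≤ hR x → In lR hR (st (st p x u) y (min s 0)) := by
    intro u u1 u2 k
    by_cases k1 : k = x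
    · subst k1; simp only [st, hxy.symm, if_true, if_false]; omega
    · by_cases k2 : k = y
      · subst k2; simp only [st, hxy, if_true, if_false]; omega
      · have hk : k ∉ ({x, y} : Finset (Fin d)) := by simp [k1, k2]
        have := R.off k hk
        have := po k hk
        simp only [st, k1, k2, if_false]
        omega
  have cc : ∀ {a b a' b' : Fin d → ℤ}, L a ≠ L b → a' = a → b' = b → L a' ≠ L b' :=
    fun h e1 e2 => e1 ▸ e2 ▸ h
  have wR : ∀ u, lR x ≤ u → u ≤ hR x → L (st p x u) ≠ L (st (st p x u) y s) := fun u u1 u2 => by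
    have k := R.wall _ (inR u u1 u2)
    rcases hv with hv | hv
    · refine cc k (funext fun n => ?_) (funext fun n => ?_) <;> simp only [st] <;>
        split_ifs <;> omega
    · refine cc k.symm (funext fun n => ?_) (funext fun n => ?_) <;> simp only [st] <;>
        split_ifs <;> omega
  have eR : ∀ u a, a = 1 ∨ a = -1 → lR x ≤ u → u ≤ hR x → u + a < lR x ∨ hR x < u + a →
      0 ≤ u + a → u + a ≤ 4 * l → L (st p x u) ≠ L (st p x (u + a)) ∧
        L (st (st p y s) x u) ≠ L (st (st p y s) x (u + a)) := fun u a ha u1 u2 u3 u4 u5 => by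
    have e : st (st p x u) y (min s 0) x = u := by simp [st, hxy.symm, px]
    have k := R.cut h hx hxy.symm (inR u u1 u2) ha (by omega) (by omega) (by omega)
    rcases hv with hv | hv
    · refine ⟨cc k.1 (funext fun n => ?_) (funext fun n => ?_),
        cc k.2 (funext fun n => ?_) (funext fun n => ?_)⟩ <;> simp only [st] <;>
        split_ifs <;> omega
    · refine ⟨cc k.2 (funext fun n => ?_) (funext fun n => ?_),
        cc k.1 (funext fun n => ?_) (funext fun n => ?_)⟩ <;> simp only [st] <;>
        split_ifs <;> omega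
  have wP : Cut L p x (lo x) := by
    have k := P.wall (st p x (lo x)) fun k => by
      by_cases k1 : k = x
      · subst k1; simp only [st, if_true]; omega
      · by_cases k2 : k = y
        · subst k2; simp only [st, hxy, if_false]; omega
        · have hk : k ∉ ({x, y} : Finset (Fin d)) := by simp [k1, k2]
          have := P.off k hk
          have := po k hk
          simp only [st, k1, if_false]
          omega
    rwa [st_st] at k
  have w0 : ∀ u, 0 ≤ u → u ≤ 4 * l → Win {x, y} 0 (fun _ => 4 * l) (st y₀ x u) := by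
    intro u u1 u2 k hk
    simp only [st, hy₀, Pi.zero_apply]
    split_ifs <;> omega
  have hs : ({x, y} : Finset (Fin d)) \ {y} = {x} := by
    ext k
    simp only [Finset.mem_sdiff, Finset.mem_insert, Finset.mem_singleton]
    omega
  have c' : Cfg L {x} (ext {x, y} {y} t p fun _ => s) lR hR := by
    have k := c.extend h (K := {y}) (by simp) (p := p) (s := fun _ => s) (A' := lR) (B' := hR) po
      (fun k hk => by
        obtain rfl := Finset.mem_singleton.1 hk
        simp only [Pi.zero_apply]
        omega) (fun k hk _ => by have := R.win k hk; simp only [Pi.zero_apply]; omega) (by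
        intro z hz k hk
        obtain rfl := Finset.mem_singleton.1 hk
        rw [hs] at hz ⊢
        have := hz x (Finset.mem_singleton_self x)
        have e : mix {x} p z = st p x (z x) := by
          funext n
          simp only [mix, st, Finset.mem_singleton]
          split_ifs with hn
          · subst hn; omega
          · rfl
        rw [e]
        exact wR _ this.1 this.2)
    rwa [hs] at k
  by_cases z0 : lR x = 0
  · exact c'.base h (by omega)
  have e0 := eR (lR x) (-1) (by omega) le_rfl (by omega) (by omega) (by omega) (by omega)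
  have e1 : Cut L p x (lR x - 1) := by
    simp only [Cut, sub_add_cancel]; exact e0.1.symm
  have e2 : Cut L (st p y s) x (lR x - 1) := by
    simp only [Cut, sub_add_cancel]; exact e0.2.symm
  have hd : ({x, y} : Finset (Fin d))ᶜ.card + 2 = d := by
    rw [Finset.card_compl, Finset.card_pair hxy.symm, Fintype.card_fin]
    have := Finset.card_le_univ ({x, y} : Finset (Fin d))
    rw [Finset.card_pair hxy.symm, Fintype.card_fin] at this
    omega
  by_cases lg : lR x + l ≤ hR x
  · have hx1 : x ∈ ({x} : Finset (Fin d)) := Finset.mem_singleton_self x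
    have w1 : ∀ u, lR x ≤ u → u ≤ hR x → Win {x} lR hR (st y₀ x u) := fun u u1 u2 k hk => by
      obtain rfl := Finset.mem_singleton.1 hk
      simp only [st, hy₀, hxy.symm, if_true, if_false]
      omega
    have key := c'.fin h hx1 (y := y₀) (t₀ := lR x - 1) (w1 _ (by omega) (by omega))
      (w1 _ (by omega) (by omega)) (Finset.Subset.refl _) ∅ (fun a ha g g1 g2 g3 => ⟨by
        have m0 : ∀ r : Fin d → ℤ, r x = 0 → mix {x} r y₀ = r := fun r hr => by
          funext n
          simp only [mix, Finset.mem_singleton, hy₀]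
          split_ifs <;> subst_vars <;> omega
        rcases a with _ | j
        · rw [ext, m0 p px] at g3
          exact h.far_line _ x g1 e1 g3
        · by_cases hj : j = y
          · subst hj
            simp only [ext, Finset.mem_singleton, if_true] at g3
            rw [m0 _ (by simp [st, hxy.symm, px])] at g3
            exact h.far_line _ x g1 e2 g3
          · have hjx : j ≠ x := by simpa using ha
            simp only [ext, Finset.mem_singleton, hj, if_false] at g3
            rw [m0 _ (by simp [mix, px])] at g3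
            have e : mix {x, y} (t (some j)) p = mix {x, y} (t (some j)) y₀ := by
              funext n
              simp only [mix, hp']
              split_ifs <;> rfl
            rw [e] at g3
            exact c.far h hx Finset.none_mem_insertNone (by simp [hj, hjx]) (by simp) g1.le
              (w0 _ (by omega) (by omega)) (w0 _ (by omega) (by omega)) e1 g3, by simp⟩)
      (by simp) (by simp)
    rw [Finset.card_insertNone, Finset.card_compl, Finset.card_singleton, Fintype.card_fin,
      Finset.card_empty, add_zero, Nat.sub_add_cancel (Nat.succ_le_of_lt (Fin.pos x))] at key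
    exact key
  · have e3 : Cut L p x (hR x) :=
      (eR (hR x) 1 (by omega) (by omega) le_rfl (by omega) (by omega) (by omega)).1
    have f1 := h.far_line p x (by omega) e1 wP
    have f2 := h.far_line p x (by omega) wP e3
    have fa : ∀ a ∈ ({x, y} : Finset (Fin d))ᶜ.image some, ∀ g g', 0 ≤ g → g < 4 * l → 0 ≤ g' →
        g' < 4 * l → Cut L (mix {x, y} (t a) y₀) x g → Cut L p x g' →
          g + m ≤ g' ∨ g' + m ≤ g := by
      intro a ha g g' g1 g2 g3 g4 k1 k2
      obtain ⟨j, hj, rfl⟩ := Finset.mem_image.1 ha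
      rcases le_total g g' with hle | hle
      · exact Or.inl (c.far h hx (by simpa using hj) Finset.none_mem_insertNone (by simp) hle
          (w0 _ (by omega) (by omega)) (w0 _ (by omega) (by omega)) k1 k2)
      · exact Or.inr (c.far h hx Finset.none_mem_insertNone (by simpa using hj) (by simp) hle
          (w0 _ (by omega) (by omega)) (w0 _ (by omega) (by omega)) k2 k1)
    have key := c.fin h hx (y := y₀) (t₀ := lR x - 1) (w0 _ (by omega) (by omega))
      (w0 _ (by omega) (by omega)) (S := ({x, y} : Finset (Fin d))ᶜ.image some) (fun a ha => by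
        obtain ⟨j, hj, rfl⟩ := Finset.mem_image.1 ha
        simpa using hj) {lo x, hR x} (fun a ha g g1 g2 g3 => ⟨by
          have := fa a ha g _ (by omega) (by omega) (by omega) (by omega) g3 e1
          omega, fun g' hg' => by
          simp only [Finset.mem_insert, Finset.mem_singleton] at hg'
          rcases hg' with rfl | rfl
          · exact fa a ha g _ (by omega) (by omega) (by omega) (by omega) g3 wP
          · exact fa a ha g _ (by omega) (by omega) (by omega) (by omega) g3 e3⟩)
      (fun g hg => by simp only [Finset.mem_insert, Finset.mem_singleton] at hg; omega)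
      (fun g hg g' hg' _ => by
        simp only [Finset.mem_insert, Finset.mem_singleton] at hg hg'; omega)
    rw [Finset.card_image_of_injective _ (Option.some_injective _),
      Finset.card_pair (by omega), hd] at key
    exact key

theorem Cfg.all (h : Lab L m l) {t : Option (Fin d) → Fin d → ℤ} (hΛ : Λ.Nonempty)
    (c : Cfg L Λ t 0 fun _ => 4 * l) : d * m ≤ l := by
  induction hn : Λ.card using Nat.strong_induction_on generalizing Λ t with
  | _ n ih =>
    obtain ⟨x₀, hx₀⟩ := hΛ
    have hp := h.pos x₀
    by_cases H : ∀ i lo hi, Mx L (4 * l) Λ (t none) i lo hi → ∀ k ∈ Λ, k ≠ i →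
        0 < lo k ∨ hi k < 4 * l
    · have h3 : ¬ 3 ≤ Λ.card := fun h3 => h.three (by omega) h3 H
      have h0 : 0 < Λ.card := Finset.card_pos.2 ⟨x₀, hx₀⟩
      by_cases h1 : Λ.card = 1
      · obtain ⟨x, rfl⟩ := Finset.card_eq_one.1 h1
        exact c.base h (by simp only [Pi.zero_apply]; omega)
      · obtain ⟨x, y, hxy, rfl⟩ := Finset.card_eq_two.1 (by omega : Λ.card = 2)
        exact c.two h hxy.symm fun lo hi P => H x lo hi P y (by simp) hxy.symm
    push Not at H
    obtain ⟨i, lo, hi, P, k₀, hk₀, hki, e1, e2⟩ := H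
    set K := Λ.filter fun k => k = i ∨ 0 < lo k ∨ hi k < 4 * l with hK
    have hiK : i ∈ K := Finset.mem_filter.2 ⟨P.mem, Or.inl rfl⟩
    have c' := c.extend h (K := K) (Finset.filter_subset _ _)
      (p := fun k => if hi k < 4 * l then hi k else lo k)
      (s := fun k => if hi k < 4 * l then 1 else -1) (A' := 0) (B' := fun _ => 4 * l)
      (fun k hk => by have := P.off k hk; split_ifs <;> omega) (fun k hk => by
        obtain ⟨k1, k2⟩ := Finset.mem_filter.1 hk
        have := P.win k k1
        have := P.lt
        simp only [Pi.zero_apply]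
        rcases k2 with rfl | k2 <;> split_ifs <;> omega) (fun _ _ _ => ⟨le_rfl, le_rfl⟩) (by
        intro y hy k hk
        obtain ⟨k1, k2⟩ := Finset.mem_filter.1 hk
        have hin : In lo hi (mix (Λ \ K) (fun k => if hi k < 4 * l then hi k else lo k) y) := by
          intro j
          have := P.le j
          by_cases hj : j ∈ Λ \ K
          · have a1 := hy j hj
            obtain ⟨a2, a3⟩ := Finset.mem_sdiff.1 hj
            simp only [hK, Finset.mem_filter, a2, true_and, not_or, not_lt] at a3
            simp only [mix, hj, if_true]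
            simp only [Pi.zero_apply] at a1
            omega
          · simp only [mix, hj, if_false]
            split_ifs <;> omega
        by_cases e : k = i
        · subst e
          have := P.lt
          rw [if_pos (by omega)]
          exact P.wall _ hin
        · have a1 := P.win k k1
          have a2 : mix (Λ \ K) (fun k => if hi k < 4 * l then hi k else lo k) y k =
              if hi k < 4 * l then hi k else lo k := by simp [mix, hk]
          refine (P.cut h k1 e hin ?_ ?_ ?_ ?_).1 <;> (try rw [a2]) <;> split_ifs <;> omega)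
    refine ih _ ?_ ⟨k₀, Finset.mem_sdiff.2 ⟨hk₀, ?_⟩⟩ c' rfl
    · rw [← hn]
      exact Finset.card_lt_card (Finset.sdiff_ssubset (Finset.filter_subset _ _) ⟨i, hiK⟩)
    · simp only [hK, Finset.mem_filter, not_and, not_or, not_lt]
      exact fun _ => ⟨hki, e1, e2⟩

theorem Lab.bound (h : Lab L m l) (hd : 0 < d) : d * m ≤ l :=
  Cfg.all h (Λ := Finset.univ) (t := fun _ => 0) ⟨⟨0, hd⟩, Finset.mem_univ _⟩
    ⟨fun _ _ _ _ k hk => absurd (Finset.mem_univ k) hk, fun _ _ a ha b hb _ => by
      rcases a with _ | a
      · rcases b with _ | b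
        · rfl
        · simp only [Finset.compl_univ, Finset.mem_insertNone, Option.mem_def, Option.some.injEq, Finset.notMem_empty, imp_false, forall_eq'] at hb
      · simp only [Finset.compl_univ, Finset.mem_insertNone, Option.mem_def, Option.some.injEq, Finset.notMem_empty, imp_false, forall_eq'] at ha⟩

end Main

section Real


open Set
open scoped Classical

theorem boxes {d : ℕ} (hd : 0 < d) {D ε : ℝ} (hε : 0 < ε) {P : Set (Set (Fin d → ℝ))}
    (hP : Setoid.IsPartition P)
    (hB : ∀ X ∈ P, ∃ a b : Fin d → ℝ, (univ.pi fun j => Ioo (a j) (b j)) ⊆ X ∧ X ⊆ Icc a b)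
    (hD : ∀ X ∈ P, ∀ x ∈ X, ∀ y ∈ X, dist x y ≤ D)
    (hS : ∀ p : Fin d → ℝ, {X ∈ P | (X ∩ Metric.closedBall p ε).Nonempty}.encard ≤ (d : ℕ∞) + 1) :
    ε ≤ D / (2 * d) := by
  choose! a b ha hb using hB
  have hc : P.Countable := by
    obtain ⟨s, s1, s2⟩ := TopologicalSpace.exists_countable_dense (Fin d → ℝ)
    refine (s1.biUnion (t := fun p _ => {X ∈ P | (X ∩ Metric.closedBall p ε).Nonempty})
      fun p _ => (finite_of_encard_le_coe (k := d + 1) (by exact_mod_cast hS p)).countable).mono
      fun X hX => ?_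
    obtain ⟨x, hx⟩ := nonempty_iff_ne_empty.2 fun e : X = ∅ => hP.1 (e ▸ hX)
    obtain ⟨p, p1, p2⟩ := s2.exists_dist_lt x hε
    exact mem_biUnion p1 ⟨hX, x, hx, p2.le⟩
  have hu := hP.2
  choose M hM hM' using hu
  have key : ∀ m : ℕ, 0 < m → (d : ℝ) * m ≤ D / (2 * ε) * m + 1 := by
    intro m hm
    have hm' : (0 : ℝ) < m := by exact_mod_cast hm
    obtain ⟨h, hh, he⟩ : ∃ h : ℝ, 0 < h ∧ h * m = 2 * ε :=
      ⟨2 * ε / m, by positivity, div_mul_cancel₀ _ hm'.ne'⟩
    obtain ⟨o, ho⟩ : ∃ o : ℝ, ∀ X ∈ P, ∀ j, ∀ n : ℤ, o + h * n ≠ a X j ∧ o + h * n ≠ b X j := by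
      by_contra hn
      push Not at hn
      refine Cardinal.not_countable_real ((hc.biUnion (t := fun X _ => ⋃ j, ⋃ n : ℤ,
        ({a X j - h * n, b X j - h * n} : Set ℝ)) fun X _ => countable_iUnion fun j =>
          countable_iUnion fun n => (toFinite _).countable).mono fun o _ => ?_)
      obtain ⟨X, hX, j, n, h1⟩ := hn o
      refine mem_biUnion hX (mem_iUnion₂.2 ⟨j, n, ?_⟩)
      by_cases e : o + h * n = a X j
      · exact Or.inl (eq_sub_of_add_eq e)
      · exact Or.inr (eq_sub_of_add_eq (h1 e))
    have lab : Lab (fun x : Fin d → ℤ => M fun j => o + h * x j) m (⌊D / h⌋ + 1) := by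
      refine ⟨by exact_mod_cast hm, fun x y z e hz => ?_, fun x y j e => ?_, fun T hT => ?_⟩
      · have hX := hM fun j => o + h * x j
        have hY := hM fun j => o + h * y j
        rw [← e] at hY
        refine (hM' _ _ ⟨hX.1, ha _ hX.1 fun j _ => ?_⟩).symm
        have x1 := (hb _ hX.1 hX.2).1 j
        have x2 := (hb _ hX.1 hX.2).2 j
        have y1 := (hb _ hX.1 hY.2).1 j
        have y2 := (hb _ hX.1 hY.2).2 j
        have z1 := ho _ hX.1 j (z j)
        have mono : ∀ {u v : ℤ}, u ≤ v → o + h * u ≤ o + h * v := fun huv => by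
          gcongr
        rcases hz j with hj | hj
        · exact ⟨lt_of_le_of_ne (x1.trans (mono hj.1)) z1.1.symm,
            lt_of_le_of_ne ((mono hj.2).trans y2) z1.2⟩
        · exact ⟨lt_of_le_of_ne (y1.trans (mono hj.1)) z1.1.symm,
            lt_of_le_of_ne ((mono hj.2).trans x2) z1.2⟩
      · have hX := hM fun j => o + h * x j
        have hY := hM fun j => o + h * y j
        rw [← e] at hY
        have h1 := (dist_le_pi_dist _ _ j).trans (hD _ hX.1 _ hY.2 _ hX.2)
        rw [Real.dist_eq] at h1
        refine Int.lt_add_one_iff.2 (Int.le_floor.2 ((le_div_iff₀ hh).2 ?_))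
        push_cast
        linarith only [le_abs_self (o + h * y j - (o + h * x j)), h1]
      · rcases T.eq_empty_or_nonempty with rfl | hne
        · simp
        have h1 := hS fun j => o + h * (T.inf' hne fun p => p j : ℤ) + ε
        have h2 : ((T.image fun x : Fin d → ℤ => M fun j => o + h * x j : Finset _) : Set _) ⊆
            {X ∈ P | (X ∩ Metric.closedBall
              (fun j => o + h * (T.inf' hne fun p => p j : ℤ) + ε) ε).Nonempty} := by
          intro X hX
          obtain ⟨x, hx, rfl⟩ := Finset.mem_image.1 hX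
          refine ⟨(hM _).1, _, (hM _).2, (dist_pi_le_iff hε.le).2 fun j => ?_⟩
          obtain ⟨y, hy, e⟩ := Finset.exists_mem_eq_inf' hne fun p => p j
          have a1 : y j ≤ x j := e ▸ Finset.inf'_le (fun p => p j) hx
          have a2 : (y j : ℝ) ≤ x j := by exact_mod_cast a1
          have a3 : (x j : ℝ) - y j ≤ m := by exact_mod_cast hT x hx y hy j
          rw [e, Real.dist_eq, abs_le]
          constructor <;> nlinarith only [hh, a2, he, a3]
        have h3 := (encard_le_encard h2).trans h1
        rw [encard_coe_eq_coe_finsetCard] at h3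
        exact_mod_cast h3
    have h1 : (d : ℝ) * m ≤ (⌊D / h⌋ : ℝ) + 1 := by exact_mod_cast lab.bound hd
    have h2 : D / h = D / (2 * ε) * m := by
      rw [← he]
      field_simp
    linarith only [Int.floor_le (D / h), h1, h2]
  have hd' : (0 : ℝ) < d := by exact_mod_cast hd
  have h1 : (d : ℝ) ≤ D / (2 * ε) := by
    by_contra hn
    push Not at hn
    obtain ⟨m, hm⟩ := exists_nat_gt (1 / (d - D / (2 * ε)))
    have h0 : 0 < d - D / (2 * ε) := sub_pos.2 hn
    have h2 : (0 : ℝ) < m := lt_trans (by positivity) hm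
    have h3 := key m (by exact_mod_cast h2)
    rw [div_lt_iff₀ h0] at hm
    linarith only [hm, h3]
  rw [le_div_iff₀ (by positivity)] at h1 ⊢
  linarith

end Real

end Pool.Agent.MP_1e9e92_co.Bx
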